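import Pool.Agent.TH476.KStm2
import Pool.Agent.W979.TE.Main4

set_option autoImplicit false

open Classical Asymptotics Filter

namespace Pool.Agent.TH760.KK

open Pool.Agent.TH476 Pool.Agent.TH476.KK Pool.Agent.W979.TE Pool.Agent.W979.TE4
  Pool.Agent.W979.TE5

/-- good pairs a < b < 2a from the caterpillars -/
theorem good_of (hmain : KK.S_MAIN) (hcat : KK.S_CAT) (hgtd : KK.S_GTD) (a b : ℕ)
    (hab : a < b) (hb : b < 2 * a) : Good a b := by
  obtain ⟨p, rfl⟩ : ∃ p, b = a + p := ⟨b - a, by omega⟩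
  have hp : 1 ≤ p := by omega
  have hpa : p < a := by omega
  -- a = k p + c, 1 ≤ c ≤ p, k ≥ 1
  obtain ⟨k, hk⟩ : ∃ k, k = (a - 1) / p := ⟨_, rfl⟩
  have h1 : p * ((a - 1) / p) + (a - 1) % p = a - 1 := Nat.div_add_mod _ _
  have h2 : (a - 1) % p < p := Nat.mod_lt _ (by omega)
  have h3 : k * p = p * ((a - 1) / p) := by rw [hk, mul_comm]
  have hk1 : 1 ≤ k := by
    rw [hk]
    exact Nat.div_pos (by omega) (by omega)
  obtain ⟨c, hc⟩ : ∃ c, c = (a - 1) % p + 1 := ⟨_, rfl⟩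
  have hac : a = k * p + c := by omega
  obtain ⟨ι, _, T, hι, hC, hQ, hbal⟩ := hcat k p c hk1 (by omega) (by omega)
  rw [← hac] at hι hbal
  exact hgtd hmain k hk1 ι T a p (by omega) hp hι hC hQ hbal

/-- the rational exponents conjecture from the pieces -/
theorem end_of (hmain : KK.S_MAIN) (hcat : KK.S_CAT) (hgtd : KK.S_GTD)
    (hkst : ∀ m : ℕ, 2 ≤ m → ∃ k : ℕ, ∃ H : SimpleGraph (Fin k), H.Colorable 2 ∧
      (fun n : ℕ => (SimpleGraph.extremalNumber n H : ℝ)) =Θ[Filter.atTop]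
        (fun n : ℕ => (n : ℝ) ^ (2 - 1 / (m : ℝ)))) :
    ∀ p q : ℕ, 0 < p → p < q →
      ∃ k : ℕ, ∃ H : SimpleGraph (Fin k), H.Colorable 2 ∧
        (fun n : ℕ => (SimpleGraph.extremalNumber n H : ℝ)) =Θ[atTop]
          (fun n : ℕ => (n : ℝ) ^ (1 + (p : ℝ) / (q : ℝ))) := by
  intro p q hp hpq
  obtain ⟨a, rfl⟩ : ∃ a, q = a + p := ⟨q - p, by omega⟩
  have ha : 0 < a := by omega
  have hexp : (1 + (p : ℝ) / ((a + p : ℕ) : ℝ)) = 2 - (a : ℝ) / ((a + p : ℕ) : ℝ) := by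
    have h1 : (((a + p : ℕ) : ℝ)) ≠ 0 := by
      have : (0 : ℝ) < ((a + p : ℕ) : ℝ) := by exact_mod_cast (by omega : 0 < a + p)
      exact this.ne'
    have h2 : (p : ℝ) = ((a + p : ℕ) : ℝ) - (a : ℝ) := by push_cast; ring
    rw [h2]
    field_simp
    ring
  rw [hexp]
  by_cases hdvd : a ∣ a + p
  · obtain ⟨m, hm⟩ := hdvd
    have hm2 : 2 ≤ m := by
      by_contra hlt
      have h5 : a * m ≤ a * 1 := Nat.mul_le_mul_left _ (by omega)
      omega
    have h6 := hkst m hm2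
    have h7 : (2 - 1 / (m : ℝ)) = 2 - (a : ℝ) / ((a + p : ℕ) : ℝ) := by
      rw [hm]
      push_cast
      have h8 : (a : ℝ) ≠ 0 := by exact_mod_cast ha.ne'
      have h9 : (m : ℝ) ≠ 0 := by exact_mod_cast (by omega : m ≠ 0)
      field_simp
    rw [h7] at h6
    exact h6
  · -- a + p = b0 + j a with a < b0 < 2a
    have h1 : a * ((a + p) / a) + (a + p) % a = a + p := Nat.div_add_mod _ _
    have h2 : (a + p) % a < a := Nat.mod_lt _ ha
    have h3 : 0 < (a + p) % a := Nat.pos_of_ne_zero (fun h => hdvd (Nat.dvd_of_mod_eq_zero h))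
    have h4 : 1 ≤ (a + p) / a := Nat.div_pos (by omega) ha
    obtain ⟨j, hj⟩ : ∃ j, (a + p) / a = j + 1 := ⟨(a + p) / a - 1, by omega⟩
    have h5 : a + p = a + (a + p) % a + j * a := by
      have h6 : a * (j + 1) = j * a + a := by ring
      rw [hj, h6] at h1
      omega
    have h7 := theta_of_good ha (by omega)
      (good_iter ha (by omega) (good_of hmain hcat hgtd a (a + (a + p) % a) (by omega)
        (by omega)) j)
    rw [← h5] at h7
    exact h7

end Pool.Agent.TH760.KK
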